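import Pool.Agent.Lib.FR.Bridge

set_option autoImplicit false

namespace Pool.Agent.Results.MP_0afa72_ag.IsolatedNoLift

open Pool.Agent.Lib.FR

universe u

/-- For every prime `p`, every algebraically closed field `k` of characteristic `p` and every
`m ≥ 1`, the hypersurface `X = Spec R`, `R = k[X_0, ..., X_m, y] / (y ^ p - f)`,
`f = X_0 ... X_m + X_0 ^ a + ... + X_m ^ a`, `a = p (m + 1) + 1`, is a normal variety of dimension
`n = m + 1` with finitely many singular points, it is globally F-regular, and there is an
`(n - 1)`-form on its function field which is regular on the smooth locus of `X` but lifts to no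
proper birational `Y → X` with `Y` integral. -/
theorem result (p m : ℕ) [Fact p.Prime] (hm : 1 ≤ m) (k : Type u) [Field k] [IsAlgClosed k]
    [CharP k p] :
    ∃ _ : IsDomain (St.HS p m k),
      St.IsNormalVariety k (St.HS p m k) (m + 1) ∧
      St.IsolatedSingularities k (St.HS p m k) ∧
      St.IsCounterexample p k (St.HS p m k) m :=
  st_main p m hm k

end Pool.Agent.Results.MP_0afa72_ag.IsolatedNoLift
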