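import Pool.Agent.Lib.FR.ConeBridge20

set_option autoImplicit false

namespace Pool.Agent.Results.MP_0afa72_ag.LogResolutionNoLift

open Pool.Agent.Lib.FR

universe u

/-- For every prime `p`, every algebraically closed field `k` of characteristic `p` and every
`m ≥ 1` there is a normal affine variety `X = Spec R` over `k` of dimension `n = m + 1` which is
globally F-regular and has a log resolution, and there is an `(n - 1)`-form on its function field
which is regular on the smooth locus of `X` but lifts to no proper birational `Y → X` with `Y`
integral, in particular to no log resolution. -/
theorem result (p m : ℕ) [Fact p.Prime] (hm : 1 ≤ m) (k : Type u) [Field k] [IsAlgClosed k]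
    [CharP k p] :
    ∃ (R : Type u) (_ : CommRing R) (_ : IsDomain R) (_ : Algebra k R),
      St.IsNormalVariety k R (m + 1) ∧
      St.HasLogResolution k R ∧
      St.IsCounterexample p k R m :=
  st_cone p m hm k

end Pool.Agent.Results.MP_0afa72_ag.LogResolutionNoLift
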